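import Pool.Agent.R479.DA.Lim

/-!
# Random residues and the exceptions of a Diophantine statement

Let `Bad` be a set of objects `t` with heights `H t ≥ 1`, at most `C B ^ (κ + ε)` of them with
`H t ≤ B`, and let `X m` be random residues modulo `m` (`m` in a set `𝓜` of moduli with
`∑ m ^ (-s) < ∞`), each value of which has probability at most `A m ^ (-θ)`, `s < θ`. If
`κ < (θ - s) τ` then almost surely there are only finitely many pairs `(m, t)` with `t` in `Bad`,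
`H t ^ τ ≤ m` and `φ m t = X m`, where `φ m` is any map to the residues modulo `m`.

The case `θ = 1` for abc-triples is by helper909 (`MP_2ec8a3_nt.RandomCongruences`), whose proof
is followed.
-/

set_option autoImplicit false

namespace Pool.Agent.R728.RC

open Filter Topology MeasureTheory

/-- every prime dividing `m` divides it at least twice -/
def Squareful (m : ℕ) : Prop := 0 < m ∧ ∀ p : ℕ, p.Prime → p ∣ m → p ^ 2 ∣ m

/-- a squareful number is of the form `a ^ 2 * b ^ 3` -/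
lemma Squareful.exists_eq {m : ℕ} (hm : Squareful m) :
    ∃ a b : ℕ, 0 < a ∧ 0 < b ∧ m = a ^ 2 * b ^ 3 := by
  obtain ⟨a, b, ha, hb, hab, hsq⟩ := Nat.sq_mul_squarefree_of_pos hm.1
  -- `b ^ 2 * a = m`, `a` squarefree
  have hdvd : a ∣ b := by
    rw [← Nat.prod_primeFactors_of_squarefree hsq]
    refine Finset.prod_primes_dvd b (fun p hp => (Nat.prime_of_mem_primeFactors hp).prime) ?_
    intro p hp
    have hpp := Nat.prime_of_mem_primeFactors hp
    have hpa := Nat.dvd_of_mem_primeFactors hp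
    by_contra hpb
    have h1 : p ^ 2 ∣ m := hm.2 p hpp (by rw [← hab]; exact hpa.mul_left _)
    rw [← hab] at h1
    have hcop : Nat.Coprime (p ^ 2) (b ^ 2) :=
      Nat.Coprime.pow _ _ ((Nat.Prime.coprime_iff_not_dvd hpp).2 hpb)
    have h2 : p ^ 2 ∣ a := hcop.dvd_of_dvd_mul_left h1
    rw [pow_two] at h2
    have h3 := hsq p h2
    exact hpp.one_lt.ne' (Nat.isUnit_iff.1 h3)
  obtain ⟨c, rfl⟩ := hdvd
  refine ⟨c, a, Nat.pos_of_mul_pos_left hb, ha, ?_⟩
  rw [← hab]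
  ring

/-- the sum of `m ^ (-s)` over the squareful numbers converges for `s > 1 / 2` -/
theorem summable_squareful {s : ℝ} (hs : 1 / 2 < s) :
    Summable fun m : {m : ℕ | Squareful m} => ((m : ℕ) : ℝ) ^ (-s) := by
  have h2 : Summable fun a : ℕ => ((a : ℝ) ^ 2) ^ (-s) := by
    refine (Real.summable_nat_rpow (p := -(2 * s))).2 (by linarith) |>.congr fun a => ?_
    rw [← Real.rpow_natCast, ← Real.rpow_mul (Nat.cast_nonneg _)]
    congr 1
    push_cast
    ring
  have h3 : Summable fun b : ℕ => ((b : ℝ) ^ 3) ^ (-s) := by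
    refine (Real.summable_nat_rpow (p := -(3 * s))).2 (by linarith) |>.congr fun a => ?_
    rw [← Real.rpow_natCast, ← Real.rpow_mul (Nat.cast_nonneg _)]
    congr 1
    push_cast
    ring
  have h4 : Summable fun x : ℕ × ℕ => ((x.1 : ℝ) ^ 2) ^ (-s) * ((x.2 : ℝ) ^ 3) ^ (-s) :=
    h2.mul_of_nonneg h3 (fun _ => by positivity) (fun _ => by positivity)
  choose a b ha hb hab using fun m : {m : ℕ | Squareful m} => Squareful.exists_eq m.2
  have hinj : Function.Injective fun m : {m : ℕ | Squareful m} => (a m, b m) := by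
    intro m m' h
    simp only [Prod.mk.injEq] at h
    apply Subtype.ext
    rw [hab m, hab m', h.1, h.2]
  refine (h4.comp_injective hinj).congr fun m => ?_
  simp only [Function.comp_apply]
  rw [← Real.mul_rpow (by positivity) (by positivity)]
  congr 1
  have := hab m
  exact_mod_cast this.symm

/-- the sum of `m ^ (-s)` over the powers of `b ≥ 2` converges for `s > 0` -/
theorem summable_powers {b : ℕ} (hb : 2 ≤ b) {s : ℝ} (hs : 0 < s) :
    Summable fun m : {m : ℕ | ∃ k : ℕ, m = b ^ k} => ((m : ℕ) : ℝ) ^ (-s) := by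
  have hb0 : (0 : ℝ) ≤ b := Nat.cast_nonneg b
  have hb1 : (1 : ℝ) < b := by exact_mod_cast (by omega : 1 < b)
  have h : Summable fun k : ℕ => ((b : ℝ) ^ (-s)) ^ k :=
    summable_geometric_of_lt_one (Real.rpow_nonneg hb0 _)
      (Real.rpow_lt_one_of_one_lt_of_neg hb1 (by linarith))
  choose k hk using fun m : {m : ℕ | ∃ k : ℕ, m = b ^ k} => m.2
  have hinj : Function.Injective k := by
    intro m m' hmm
    apply Subtype.ext
    rw [hk m, hk m', hmm]
  refine (h.comp_injective hinj).congr fun m => ?_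
  simp only [Function.comp_apply]
  have h1 := hk m
  rw [← Real.rpow_natCast, ← Real.rpow_mul hb0]
  have h2 : ((m : ℕ) : ℝ) = (b : ℝ) ^ ((k m : ℕ) : ℝ) := by
    rw [Real.rpow_natCast]
    exact_mod_cast h1
  rw [h2, ← Real.rpow_mul hb0]
  congr 1
  ring

/-- the count of a set of objects gives the convergence of the sum of the negative powers of the
heights -/
lemma summable_of_count {T : Type} {H : T → ℝ} {Bad : Set T} (h1 : ∀ t ∈ Bad, 1 ≤ H t)
    {κ p : ℝ} (hκ : 0 ≤ κ) (hp : κ < p)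
    (hc : ∀ ε : ℝ, 0 < ε → ∃ C : ℝ, ∀ B : ℝ, 1 ≤ B → {t | t ∈ Bad ∧ H t ≤ B}.Finite ∧
      (({t | t ∈ Bad ∧ H t ≤ B}.ncard : ℕ) : ℝ) ≤ C * B ^ (κ + ε)) :
    Summable fun t : Bad => H t ^ (-p) := by
  obtain ⟨C, hC⟩ := hc ((p - κ) / 2) (by linarith)
  refine Pool.Agent.R479.DA.summable_heights (fun t : Bad => H t) (fun t => h1 t t.2)
    (s := κ + (p - κ) / 2) (p := p) (C := C) (by linarith) (by linarith) ?_
  intro B hB
  obtain ⟨h2, h3⟩ := hC B hB
  have himg : Subtype.val '' {t : Bad | H t ≤ B} = {t | t ∈ Bad ∧ H t ≤ B} := by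
    ext t
    simp only [Set.mem_image, Set.mem_ofPred_eq, Subtype.exists, exists_and_left, exists_prop,
      exists_eq_right_right]
    tauto
  have hinj : Set.InjOn Subtype.val {t : Bad | H t ≤ B} := Subtype.val_injective.injOn
  refine ⟨Set.Finite.of_finite_image (by rw [himg]; exact h2) hinj, ?_⟩
  rw [← hinj.ncard_image, himg]
  exact h3

section prob

variable {T : Type} [Countable T] {H : T → ℝ} {Bad : Set T} {𝓜 : Set ℕ} {s θ τ κ A : ℝ}
  {Ω : Type*} [MeasurableSpace Ω] {P : Measure Ω}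
  {X : ∀ m : ℕ, Ω → ZMod m} {φ : ∀ m : ℕ, T → ZMod m}

/-- **Random residues avoid the exceptions.** -/
theorem finite_core (h1 : ∀ t ∈ Bad, 1 ≤ H t) (hκ : 0 ≤ κ)
    (hc : ∀ ε : ℝ, 0 < ε → ∃ C : ℝ, ∀ B : ℝ, 1 ≤ B → {t | t ∈ Bad ∧ H t ≤ B}.Finite ∧
      (({t | t ∈ Bad ∧ H t ≤ B}.ncard : ℕ) : ℝ) ≤ C * B ^ (κ + ε))
    (h0 : ∀ m ∈ 𝓜, 0 < m) (hs : s < θ)
    (hsum : Summable fun m : 𝓜 => ((m : ℕ) : ℝ) ^ (-s))
    (hX : ∀ m ∈ 𝓜, ∀ r : ZMod m, P {ω | X m ω = r} ≤ ENNReal.ofReal (A * (m : ℝ) ^ (-θ)))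
    (hτ : κ < (θ - s) * τ) :
    ∀ᵐ ω ∂P, {x : ℕ × T | x.1 ∈ 𝓜 ∧ x.2 ∈ Bad ∧ H x.2 ^ τ ≤ x.1 ∧
      φ x.1 x.2 = X x.1 ω}.Finite := by
  classical
  let E : 𝓜 × Bad → Set Ω := fun i =>
    {ω | H i.2 ^ τ ≤ ((i.1 : ℕ) : ℝ) ∧ X i.1 ω = φ i.1 i.2}
  have hprod : Summable fun i : 𝓜 × Bad =>
      (((i.1 : ℕ) : ℝ) ^ (-s)) * (H i.2 ^ (-((θ - s) * τ))) :=
    hsum.mul_of_nonneg (summable_of_count h1 hκ hτ hc)
      (fun _ => Real.rpow_nonneg (Nat.cast_nonneg _) _)
      (fun t => Real.rpow_nonneg (by have := h1 t t.2; linarith) _)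
  have hH0 : ∀ i : 𝓜 × Bad, (0 : ℝ) < H i.2 := fun i => by
    have := h1 i.2 i.2.2
    linarith
  have hbound : ∀ i : 𝓜 × Bad, P (E i) ≤ ENNReal.ofReal (|A| *
      ((((i.1 : ℕ) : ℝ) ^ (-s)) * (H i.2 ^ (-((θ - s) * τ))))) := by
    intro i
    by_cases hi : H i.2 ^ τ ≤ ((i.1 : ℕ) : ℝ)
    · have hm : (0 : ℝ) < ((i.1 : ℕ) : ℝ) := by exact_mod_cast h0 _ i.1.2
      have hc0 := hH0 i
      refine (measure_mono (fun ω hω => hω.2)).trans ((hX _ i.1.2 _).trans ?_)
      apply ENNReal.ofReal_le_ofReal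
      have h2 : (((i.1 : ℕ) : ℝ)) ^ (-θ) ≤
          (((i.1 : ℕ) : ℝ) ^ (-s)) * (H i.2 ^ (-((θ - s) * τ))) := by
        have e1 : (((i.1 : ℕ) : ℝ)) ^ (-θ) =
            (((i.1 : ℕ) : ℝ) ^ (-s)) * (((i.1 : ℕ) : ℝ) ^ (-(θ - s))) := by
          rw [← Real.rpow_add hm]
          congr 1
          ring
        rw [e1]
        refine mul_le_mul_of_nonneg_left ?_ (by positivity)
        calc ((i.1 : ℕ) : ℝ) ^ (-(θ - s)) ≤ (H i.2 ^ τ) ^ (-(θ - s)) :=
              Real.rpow_le_rpow_of_nonpos (by positivity) hi (by linarith)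
          _ = H i.2 ^ (-((θ - s) * τ)) := by
              rw [← Real.rpow_mul hc0.le]
              congr 1
              ring
      calc A * ((i.1 : ℕ) : ℝ) ^ (-θ) ≤ |A| * (((i.1 : ℕ) : ℝ)) ^ (-θ) :=
            mul_le_mul_of_nonneg_right (le_abs_self A) (by positivity)
        _ ≤ _ := mul_le_mul_of_nonneg_left h2 (abs_nonneg A)
    · have : E i = ∅ := by
        ext ω
        simp only [E, Set.mem_ofPred_eq, Set.mem_empty_iff_false, iff_false]
        exact fun h => hi h.1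
      rw [this, measure_empty]
      exact bot_le
  have hfin : ∑' i, P (E i) ≠ ⊤ := by
    refine ne_top_of_le_ne_top ?_ (ENNReal.tsum_le_tsum hbound)
    rw [← ENNReal.ofReal_tsum_of_nonneg ?_ (hprod.mul_left _)]
    · exact ENNReal.ofReal_ne_top
    · intro i
      have := hH0 i
      positivity
  filter_upwards [ae_finite_setOfPred_mem hfin] with ω hω
  refine (hω.image fun i => ((i.1 : ℕ), (i.2 : T))).subset ?_
  rintro ⟨m, t⟩ ⟨h2, h3, h4, h5⟩
  exact ⟨(⟨m, h2⟩, ⟨t, h3⟩), ⟨h4, h5.symm⟩, rfl⟩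

end prob

end Pool.Agent.R728.RC
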