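import Pool.Agent.R728.RC.Gen

/-!
# Random elements avoid given finite sets of controlled size
-/

set_option autoImplicit false

open MeasureTheory

namespace Pool.Agent.R728.RC

variable {𝓜 : Set ℕ} {s θ A D : ℝ} {Ω : Type*} [MeasurableSpace Ω] {P : Measure Ω}
  {Y : ℕ → Type*} {X : ∀ m : ℕ, Ω → Y m}

/-- If the finite sets `B m` have at most `D m ^ (θ - s)` elements, then almost surely `X m` is in
`B m` for finitely many `m` only. -/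
theorem finite_each {B : ∀ m : ℕ, Set (Y m)} (h0 : ∀ m ∈ 𝓜, 0 < m)
    (hsum : Summable fun m : 𝓜 => ((m : ℕ) : ℝ) ^ (-s))
    (hX : ∀ m ∈ 𝓜, ∀ r : Y m, P {ω | X m ω = r} ≤ ENNReal.ofReal (A * (m : ℝ) ^ (-θ)))
    (hB : ∀ m ∈ 𝓜, (B m).Finite ∧ (((B m).ncard : ℕ) : ℝ) ≤ D * (m : ℝ) ^ (θ - s)) :
    ∀ᵐ ω ∂P, {m : ℕ | m ∈ 𝓜 ∧ X m ω ∈ B m}.Finite := by
  classical
  let E : 𝓜 → Set Ω := fun m => {ω | X m ω ∈ B m}
  have hbound : ∀ m : 𝓜, P (E m) ≤ ENNReal.ofReal ((|D| * |A|) * ((m : ℕ) : ℝ) ^ (-s)) := by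
    intro m
    obtain ⟨hfin, hcard⟩ := hB m m.2
    have hm : (0 : ℝ) < ((m : ℕ) : ℝ) := by exact_mod_cast h0 _ m.2
    have hE : E m = ⋃ r ∈ hfin.toFinset, {ω | X m ω = r} := by
      ext ω
      simp [E]
    rw [hE]
    refine (measure_biUnion_finset_le _ _).trans ?_
    refine (Finset.sum_le_sum fun r _ => hX m m.2 r).trans ?_
    rw [Finset.sum_const, nsmul_eq_mul, ← Set.ncard_eq_toFinset_card _ hfin]
    have h1 : ((((B m).ncard : ℕ) : ENNReal)) = ENNReal.ofReal (((B m).ncard : ℕ) : ℝ) :=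
      (ENNReal.ofReal_natCast _).symm
    rw [h1, ← ENNReal.ofReal_mul (Nat.cast_nonneg _)]
    apply ENNReal.ofReal_le_ofReal
    have e1 : ((m : ℕ) : ℝ) ^ (-s) = ((m : ℕ) : ℝ) ^ (θ - s) * ((m : ℕ) : ℝ) ^ (-θ) := by
      rw [← Real.rpow_add hm]
      congr 1
      ring
    have e2 : (0 : ℝ) ≤ ((m : ℕ) : ℝ) ^ (θ - s) := by positivity
    have e3 : (0 : ℝ) ≤ ((m : ℕ) : ℝ) ^ (-θ) := by positivity
    calc (((B m).ncard : ℕ) : ℝ) * (A * ((m : ℕ) : ℝ) ^ (-θ))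
        ≤ (((B m).ncard : ℕ) : ℝ) * (|A| * ((m : ℕ) : ℝ) ^ (-θ)) := by
          gcongr
          exact le_abs_self A
      _ ≤ (|D| * ((m : ℕ) : ℝ) ^ (θ - s)) * (|A| * ((m : ℕ) : ℝ) ^ (-θ)) := by
          gcongr
          exact hcard.trans (mul_le_mul_of_nonneg_right (le_abs_self D) e2)
      _ = (|D| * |A|) * ((m : ℕ) : ℝ) ^ (-s) := by
          rw [e1]
          ring
  have hfin : ∑' i, P (E i) ≠ ⊤ := by
    refine ne_top_of_le_ne_top ?_ (ENNReal.tsum_le_tsum hbound)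
    rw [← ENNReal.ofReal_tsum_of_nonneg ?_ (hsum.mul_left _)]
    · exact ENNReal.ofReal_ne_top
    · intro i
      positivity
  filter_upwards [ae_finite_setOfPred_mem hfin] with ω hω
  refine (hω.image fun i => ((i : 𝓜) : ℕ)).subset ?_
  rintro m ⟨h2, h3⟩
  exact ⟨⟨m, h2⟩, h3, rfl⟩

/-- The version for images of sets of objects. -/
theorem eventually_each {T : Type} {F : ℕ → Set T} {φ : ∀ m : ℕ, T → Y m}
    (h0 : ∀ m ∈ 𝓜, 0 < m) (hsum : Summable fun m : 𝓜 => ((m : ℕ) : ℝ) ^ (-s))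
    (hX : ∀ m ∈ 𝓜, ∀ r : Y m, P {ω | X m ω = r} ≤ ENNReal.ofReal (A * (m : ℝ) ^ (-θ)))
    (hF : ∀ m ∈ 𝓜, (F m).Finite ∧ (((F m).ncard : ℕ) : ℝ) ≤ D * (m : ℝ) ^ (θ - s)) :
    ∀ᵐ ω ∂P, ∃ m₀ : ℕ, ∀ m ∈ 𝓜, m₀ ≤ m → ∀ t ∈ F m, φ m t ≠ X m ω := by
  have h := finite_each (B := fun m => φ m '' F m) h0 hsum hX (D := D) (fun m hm =>
    ⟨(hF m hm).1.image _, le_trans (by exact_mod_cast Set.ncard_image_le (hF m hm).1)
      (hF m hm).2⟩)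
  filter_upwards [h] with ω hω
  obtain ⟨M, hM⟩ := hω.bddAbove
  refine ⟨M + 1, fun m hm hmM t ht heq => ?_⟩
  have := hM ⟨hm, t, ht, heq⟩
  omega

end Pool.Agent.R728.RC
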