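import Pool.Agent.R728.RC.Core

/-!
# Random residue classes avoid the exceptions: arbitrary targets

The same as `finite_core`, for random elements `X m` of arbitrary sets `Y m`.
-/

set_option autoImplicit false

open MeasureTheory

namespace Pool.Agent.R728.RC

variable {T : Type} [Countable T] {H : T → ℝ} {Bad : Set T} {𝓜 : Set ℕ} {s θ τ κ A : ℝ}
  {Ω : Type*} [MeasurableSpace Ω] {P : Measure Ω} {Y : ℕ → Type*}
  {X : ∀ m : ℕ, Ω → Y m} {φ : ∀ m : ℕ, T → Y m}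

/-- **Random elements avoid the images of the exceptions.** -/
theorem finite_gen (h1 : ∀ t ∈ Bad, 1 ≤ H t) (hκ : 0 ≤ κ)
    (hc : ∀ ε : ℝ, 0 < ε → ∃ C : ℝ, ∀ B : ℝ, 1 ≤ B → {t | t ∈ Bad ∧ H t ≤ B}.Finite ∧
      (({t | t ∈ Bad ∧ H t ≤ B}.ncard : ℕ) : ℝ) ≤ C * B ^ (κ + ε))
    (h0 : ∀ m ∈ 𝓜, 0 < m) (hs : s < θ)
    (hsum : Summable fun m : 𝓜 => ((m : ℕ) : ℝ) ^ (-s))
    (hX : ∀ m ∈ 𝓜, ∀ r : Y m, P {ω | X m ω = r} ≤ ENNReal.ofReal (A * (m : ℝ) ^ (-θ)))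
    (hτ : κ < (θ - s) * τ) :
    ∀ᵐ ω ∂P, {x : ℕ × T | x.1 ∈ 𝓜 ∧ x.2 ∈ Bad ∧ H x.2 ^ τ ≤ x.1 ∧
      φ x.1 x.2 = X x.1 ω}.Finite := by
  classical
  let E : 𝓜 × Bad → Set Ω := fun i =>
    {ω | H i.2 ^ τ ≤ ((i.1 : ℕ) : ℝ) ∧ X i.1 ω = φ i.1 i.2}
  have hprod : Summable fun i : 𝓜 × Bad =>
      (((i.1 : ℕ) : ℝ) ^ (-s)) * (H i.2 ^ (-((θ - s) * τ))) :=
    hsum.mul_of_nonneg (summable_of_count h1 hκ hτ hc)
      (fun _ => Real.rpow_nonneg (Nat.cast_nonneg _) _)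
      (fun t => Real.rpow_nonneg (by have := h1 t t.2; linarith) _)
  have hH0 : ∀ i : 𝓜 × Bad, (0 : ℝ) < H i.2 := fun i => by
    have := h1 i.2 i.2.2
    linarith
  have hbound : ∀ i : 𝓜 × Bad, P (E i) ≤ ENNReal.ofReal (|A| *
      ((((i.1 : ℕ) : ℝ) ^ (-s)) * (H i.2 ^ (-((θ - s) * τ))))) := by
    intro i
    by_cases hi : H i.2 ^ τ ≤ ((i.1 : ℕ) : ℝ)
    · have hm : (0 : ℝ) < ((i.1 : ℕ) : ℝ) := by exact_mod_cast h0 _ i.1.2
      have hc0 := hH0 i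
      refine (measure_mono (fun ω hω => hω.2)).trans ((hX _ i.1.2 _).trans ?_)
      apply ENNReal.ofReal_le_ofReal
      have h2 : (((i.1 : ℕ) : ℝ)) ^ (-θ) ≤
          (((i.1 : ℕ) : ℝ) ^ (-s)) * (H i.2 ^ (-((θ - s) * τ))) := by
        have e1 : (((i.1 : ℕ) : ℝ)) ^ (-θ) =
            (((i.1 : ℕ) : ℝ) ^ (-s)) * (((i.1 : ℕ) : ℝ) ^ (-(θ - s))) := by
          rw [← Real.rpow_add hm]
          congr 1
          ring
        rw [e1]
        refine mul_le_mul_of_nonneg_left ?_ (by positivity)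
        calc ((i.1 : ℕ) : ℝ) ^ (-(θ - s)) ≤ (H i.2 ^ τ) ^ (-(θ - s)) :=
              Real.rpow_le_rpow_of_nonpos (by positivity) hi (by linarith)
          _ = H i.2 ^ (-((θ - s) * τ)) := by
              rw [← Real.rpow_mul hc0.le]
              congr 1
              ring
      calc A * ((i.1 : ℕ) : ℝ) ^ (-θ) ≤ |A| * (((i.1 : ℕ) : ℝ)) ^ (-θ) :=
            mul_le_mul_of_nonneg_right (le_abs_self A) (by positivity)
        _ ≤ _ := mul_le_mul_of_nonneg_left h2 (abs_nonneg A)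
    · have : E i = ∅ := by
        ext ω
        simp only [E, Set.mem_ofPred_eq, Set.mem_empty_iff_false, iff_false]
        exact fun h => hi h.1
      rw [this, measure_empty]
      exact bot_le
  have hfin : ∑' i, P (E i) ≠ ⊤ := by
    refine ne_top_of_le_ne_top ?_ (ENNReal.tsum_le_tsum hbound)
    rw [← ENNReal.ofReal_tsum_of_nonneg ?_ (hprod.mul_left _)]
    · exact ENNReal.ofReal_ne_top
    · intro i
      have := hH0 i
      positivity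
  filter_upwards [ae_finite_setOfPred_mem hfin] with ω hω
  refine (hω.image fun i => ((i.1 : ℕ), (i.2 : T))).subset ?_
  rintro ⟨m, t⟩ ⟨h2, h3, h4, h5⟩
  exact ⟨(⟨m, h2⟩, ⟨t, h3⟩), ⟨h4, h5.symm⟩, rfl⟩

/-- all positive integers -/
theorem summable_all {s : ℝ} (hs : 1 < s) :
    Summable fun m : {m : ℕ | 0 < m} => ((m : ℕ) : ℝ) ^ (-s) :=
  (Real.summable_nat_rpow.2 (by linarith : -s < -1)).subtype _

end Pool.Agent.R728.RC
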