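import Pool.Agent.R728.RC.Core
import Pool.Agent.Results.MP_e734ed_nt.SparseExceptions

/-!
# Random residues and the inequality of Hall
-/

set_option autoImplicit false

namespace Pool.Agent.R728.RC.Hall

open Filter Topology MeasureTheory Pool.Agent.R728.RC

/-- the pair `(x, y)` violates `|y ^ 2 - x ^ 3| > C |x| ^ (1 / 2 - δ)` -/
def Violates (C δ : ℝ) (e : ℤ × ℤ) : Prop :=
  e.2 ^ 2 ≠ e.1 ^ 3 ∧ |(e.2 : ℝ) ^ 2 - (e.1 : ℝ) ^ 3| ≤ C * |(e.1 : ℝ)| ^ (1 / 2 - δ)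

lemma one_le_abs_sub {e : ℤ × ℤ} (h : e.2 ^ 2 ≠ e.1 ^ 3) :
    1 ≤ |(e.2 : ℝ) ^ 2 - (e.1 : ℝ) ^ 3| := by
  have h1 : (1 : ℤ) ≤ |e.2 ^ 2 - e.1 ^ 3| := Int.one_le_abs (sub_ne_zero.2 h)
  exact_mod_cast h1

lemma one_le_of_violates {C δ : ℝ} (hδ : δ < 1 / 2) {e : ℤ × ℤ} (h : Violates C δ e) :
    1 ≤ |(e.1 : ℝ)| := by
  have hne : e.1 ≠ 0 := by
    intro h0
    have h1 := one_le_abs_sub h.1
    have h2 := h.2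
    rw [h0] at h2
    simp only [Int.cast_zero, abs_zero] at h2
    rw [Real.zero_rpow (by linarith), mul_zero] at h2
    rw [h0] at h1
    simp only [Int.cast_zero] at h1
    linarith
  exact_mod_cast Int.one_le_abs hne

lemma Violates.mono {C C' δ δ' : ℝ} (hδ : δ < 1 / 2) (hC : C ≤ C') (hC' : 0 ≤ C')
    (hδ' : δ' ≤ δ) {e : ℤ × ℤ} (h : Violates C δ e) : Violates C' δ' e := by
  refine ⟨h.1, h.2.trans ?_⟩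
  have h1 := one_le_of_violates hδ h
  calc C * |(e.1 : ℝ)| ^ (1 / 2 - δ) ≤ C' * |(e.1 : ℝ)| ^ (1 / 2 - δ) :=
        mul_le_mul_of_nonneg_right hC (by positivity)
    _ ≤ C' * |(e.1 : ℝ)| ^ (1 / 2 - δ') :=
        mul_le_mul_of_nonneg_left (Real.rpow_le_rpow_of_exponent_le h1 (by linarith)) hC'

section prob

variable {𝓜 : Set ℕ} {s θ A : ℝ} {Ω : Type*} [MeasurableSpace Ω] {P : Measure Ω}
  {X : ∀ m : ℕ, Ω → ZMod m} {φ : ∀ m : ℕ, ℤ × ℤ → ZMod m}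

lemma fin_one {C δ τ : ℝ} (hδ0 : 0 ≤ δ) (hδ : δ < 1 / 2)
    (h0 : ∀ m ∈ 𝓜, 0 < m) (hs : s < θ) (hsum : Summable fun m : 𝓜 => ((m : ℕ) : ℝ) ^ (-s))
    (hX : ∀ m ∈ 𝓜, ∀ r : ZMod m, P {ω | X m ω = r} ≤ ENNReal.ofReal (A * (m : ℝ) ^ (-θ)))
    (hτ : 1 / 3 - δ / 6 < (θ - s) * τ) :
    ∀ᵐ ω ∂P, {x : ℕ × (ℤ × ℤ) | x.1 ∈ 𝓜 ∧ x.2 ∈ {e | Violates C δ e} ∧
      |(x.2.1 : ℝ)| ^ τ ≤ x.1 ∧ φ x.1 x.2 = X x.1 ω}.Finite := by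
  refine finite_core (H := fun e : ℤ × ℤ => |(e.1 : ℝ)|) (κ := 1 / 3 - δ / 6)
    (fun e he => one_le_of_violates hδ he) (by linarith) ?_ h0 hs hsum hX hτ
  intro ε hε
  obtain ⟨K, hK⟩ := Pool.Agent.Results.MP_e734ed_nt.SparseExceptions.result C ε hε
  refine ⟨K, fun B hB => ?_⟩
  obtain ⟨h1, h2⟩ := hK δ hδ0 hδ.le B hB
  have hset : {e : ℤ × ℤ | e ∈ {e | Violates C δ e} ∧ |(e.1 : ℝ)| ≤ B} =
      {e : ℤ × ℤ | |(e.1 : ℝ)| ≤ B ∧ e.2 ^ 2 ≠ e.1 ^ 3 ∧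
        |(e.2 : ℝ) ^ 2 - (e.1 : ℝ) ^ 3| ≤ C * |(e.1 : ℝ)| ^ (1 / 2 - δ)} := by
    ext e
    simp only [Set.mem_ofPred_eq, Violates]
    tauto
  rw [hset]
  exact ⟨h1, h2⟩

theorem fin_all (h0 : ∀ m ∈ 𝓜, 0 < m) (hs : s < θ)
    (hsum : Summable fun m : 𝓜 => ((m : ℕ) : ℝ) ^ (-s))
    (hX : ∀ m ∈ 𝓜, ∀ r : ZMod m, P {ω | X m ω = r} ≤ ENNReal.ofReal (A * (m : ℝ) ^ (-θ))) :
    ∀ᵐ ω ∂P, ∀ C δ τ : ℝ, 0 ≤ δ → δ < 1 / 2 → 1 / 3 - δ / 6 < (θ - s) * τ →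
      {x : ℕ × (ℤ × ℤ) | x.1 ∈ 𝓜 ∧ |(x.2.1 : ℝ)| ^ τ ≤ x.1 ∧
        φ x.1 x.2 = X x.1 ω ∧ Violates C δ x.2}.Finite := by
  have key : ∀ᵐ ω ∂P, ∀ (n : ℕ) (a b : ℚ), (0 : ℝ) ≤ a → (a : ℝ) < 1 / 2 →
      1 / 3 - (a : ℝ) / 6 < (θ - s) * b →
      {x : ℕ × (ℤ × ℤ) | x.1 ∈ 𝓜 ∧ x.2 ∈ {e | Violates n a e} ∧
        |(x.2.1 : ℝ)| ^ (b : ℝ) ≤ x.1 ∧ φ x.1 x.2 = X x.1 ω}.Finite := by
    rw [ae_all_iff]
    intro n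
    rw [ae_all_iff]
    intro a
    rw [ae_all_iff]
    intro b
    by_cases hab : (0 : ℝ) ≤ a ∧ (a : ℝ) < 1 / 2 ∧ 1 / 3 - (a : ℝ) / 6 < (θ - s) * b
    · filter_upwards [fin_one (C := n) (φ := φ) hab.1 hab.2.1 h0 hs hsum hX hab.2.2] with ω hω _ _ _
      exact hω
    · filter_upwards with ω h1 h2 h3
      exact absurd ⟨h1, h2, h3⟩ hab
  filter_upwards [key] with ω hω C δ τ hδ0 hδ hτ
  have hθ : 0 < θ - s := by linarith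
  obtain ⟨n, hn⟩ := exists_nat_ge C
  -- a rational number `b ≤ τ`, then a rational number `a ≤ δ`
  obtain ⟨b, hb1, hb2⟩ := exists_rat_btwn (show (1 / 3 - δ / 6) / (θ - s) < τ by
    rw [div_lt_iff₀ hθ]; linarith)
  have hb3 : 1 / 3 - δ / 6 < (θ - s) * b := by
    rw [div_lt_iff₀ hθ] at hb1
    linarith
  obtain ⟨a, ha0, ha1, ha2⟩ : ∃ a : ℚ, (0 : ℝ) ≤ a ∧ (a : ℝ) ≤ δ ∧
      1 / 3 - (a : ℝ) / 6 < (θ - s) * b := by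
    rcases hδ0.eq_or_lt with h | h
    · refine ⟨0, by simp, by simp [← h], ?_⟩
      rw [← h] at hb3
      simpa using hb3
    · have h2 : max 0 (6 * (1 / 3 - (θ - s) * b)) < δ := max_lt h (by linarith)
      obtain ⟨a, ha1, ha2⟩ := exists_rat_btwn h2
      refine ⟨a, (le_max_left _ _).trans ha1.le, ha2.le, ?_⟩
      have := (le_max_right 0 (6 * (1 / 3 - (θ - s) * (b : ℝ)))).trans_lt ha1
      linarith
  refine (hω n a b ha0 (by linarith) ha2).subset ?_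
  rintro ⟨m, e⟩ ⟨h1, h2, h3, h4⟩
  have h5 := one_le_of_violates hδ h4
  refine ⟨h1, h4.mono hδ hn (Nat.cast_nonneg n) ha1, le_trans ?_ h2, h3⟩
  exact Real.rpow_le_rpow_of_exponent_le h5 hb2.le

/-- the inequality with a constant for all pairs in the relation -/
theorem const_all (h0 : ∀ m ∈ 𝓜, 0 < m) (hs : s < θ)
    (hsum : Summable fun m : 𝓜 => ((m : ℕ) : ℝ) ^ (-s))
    (hX : ∀ m ∈ 𝓜, ∀ r : ZMod m, P {ω | X m ω = r} ≤ ENNReal.ofReal (A * (m : ℝ) ^ (-θ))) :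
    ∀ᵐ ω ∂P, ∀ δ τ : ℝ, 0 ≤ δ → δ < 1 / 2 → 1 / 3 - δ / 6 < (θ - s) * τ →
      ∃ c : ℝ, 0 < c ∧ ∀ m ∈ 𝓜, ∀ x y : ℤ, y ^ 2 ≠ x ^ 3 → |(x : ℝ)| ^ τ ≤ m →
        φ m (x, y) = X m ω → c * |(x : ℝ)| ^ (1 / 2 - δ) < |(y : ℝ) ^ 2 - (x : ℝ) ^ 3| := by
  filter_upwards [fin_all (φ := φ) h0 hs hsum hX] with ω hω δ τ hδ0 hδ hτ
  have hfin := hω 1 δ τ hδ0 hδ hτ
  obtain ⟨B, hB⟩ := (hfin.image fun x => |(x.2.1 : ℝ)| ^ (1 / 2 - δ)).bddAbove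
  refine ⟨1 / (|B| + 2), by positivity, fun m hm x y hxy hx hφ => ?_⟩
  have h3 : 0 < |B| + 2 := by positivity
  by_cases hv : Violates 1 δ (x, y)
  · have h1 := hB ⟨(m, (x, y)), ⟨hm, hx, hφ, hv⟩, rfl⟩
    simp only at h1
    have h2 := one_le_abs_sub (e := (x, y)) hxy
    simp only at h2
    refine lt_of_lt_of_le ?_ h2
    rw [div_mul_eq_mul_div, div_lt_one h3, one_mul]
    linarith [le_abs_self B]
  · unfold Violates at hv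
    simp only [not_and, not_le, one_mul] at hv
    refine lt_of_le_of_lt ?_ (hv hxy)
    have h4 : 0 ≤ |(x : ℝ)| ^ (1 / 2 - δ) := by positivity
    have h5 : 1 / (|B| + 2) ≤ 1 := by
      rw [div_le_one h3]
      linarith [abs_nonneg B]
    exact mul_le_of_le_one_left h4 h5

end prob

end Pool.Agent.R728.RC.Hall
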