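import Pool.Agent.R728.RC.Gen

/-!
# Random elements avoid the exceptions: the form with the range `L t ≤ m ^ ρ`
-/

set_option autoImplicit false

open MeasureTheory

namespace Pool.Agent.R728.RC

lemma log_floor {B : ℝ} (hB : 1 ≤ B) : Real.log ((⌊Real.exp B⌋₊ + 3 : ℕ) : ℝ) ≤ 3 * B := by
  have h1 := Nat.floor_le (Real.exp_pos B).le
  have h2 : (1 : ℝ) + B ≤ Real.exp B := by linarith [Real.add_one_le_exp B]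
  have h3 : ((⌊Real.exp B⌋₊ + 3 : ℕ) : ℝ) ≤ Real.exp (3 * B) := by
    push_cast
    have h4 : Real.exp (3 * B) = Real.exp B ^ 3 := by
      rw [← Real.exp_nat_mul]
      norm_num
    rw [h4]
    nlinarith [sq_nonneg (Real.exp B), mul_nonneg (Real.exp_pos B).le (sq_nonneg (Real.exp B - 2))]
  calc Real.log ((⌊Real.exp B⌋₊ + 3 : ℕ) : ℝ) ≤ Real.log (Real.exp (3 * B)) := by
        apply Real.log_le_log _ h3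
        positivity
    _ = 3 * B := Real.log_exp _

section main

variable {𝓜 : Set ℕ} {s θ A : ℝ} {Ω : Type} [MeasurableSpace Ω] {P : Measure Ω} {Y : ℕ → Type}
  {X : ∀ m : ℕ, Ω → Y m}

/-- passage from the count to the range `max 1 (log c) ≤ m ^ ρ`, for one `ρ` -/
lemma one_rho {T : Type} [Countable T] {L : T → ℝ} {Bd : Set T} {κ : ℝ} (hκ : 0 ≤ κ)
    (hc : ∀ ε : ℝ, 0 < ε → ∃ C : ℝ, ∀ B : ℝ, 1 ≤ B → {t | t ∈ Bd ∧ max 1 (L t) ≤ B}.Finite ∧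
      (({t | t ∈ Bd ∧ max 1 (L t) ≤ B}.ncard : ℕ) : ℝ) ≤ C * B ^ (κ + ε))
    {φ : ∀ m : ℕ, T → Y m} (h0 : ∀ m ∈ 𝓜, 0 < m) (hs : s < θ)
    (hsum : Summable fun m : 𝓜 => ((m : ℕ) : ℝ) ^ (-s))
    (hX : ∀ m ∈ 𝓜, ∀ r : Y m, P {ω | X m ω = r} ≤ ENNReal.ofReal (A * (m : ℝ) ^ (-θ)))
    {ρ : ℝ} (hρ : 0 < ρ) (hρ2 : κ * ρ < θ - s) :
    ∀ᵐ ω ∂P, {x : ℕ × T | x.1 ∈ 𝓜 ∧ x.2 ∈ Bd ∧ L x.2 ≤ (x.1 : ℝ) ^ ρ ∧
      φ x.1 x.2 = X x.1 ω}.Finite := by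
  have hmain := finite_gen (H := fun t : T => max 1 (L t))
    (Bad := Bd) (φ := φ) (τ := 1 / ρ) (fun t _ => le_max_left _ _) hκ hc h0 hs hsum hX
    (by rw [mul_one_div, lt_div_iff₀ hρ]; exact hρ2)
  filter_upwards [hmain] with ω hω
  refine hω.subset ?_
  rintro ⟨m, t⟩ ⟨h1, h2, h3, h4⟩
  refine ⟨h1, h2, ?_, h4⟩
  have h5 : (1 : ℝ) ≤ (m : ℝ) := by exact_mod_cast h0 m h1
  have h6 : max 1 (L t) ≤ (m : ℝ) ^ ρ := max_le (Real.one_le_rpow h5 hρ.le) h3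
  calc (max 1 (L t)) ^ (1 / ρ) ≤ ((m : ℝ) ^ ρ) ^ (1 / ρ) :=
        Real.rpow_le_rpow (by positivity) h6 (by positivity)
    _ = m := by
        rw [← Real.rpow_mul (by linarith), mul_one_div_cancel hρ.ne', Real.rpow_one]

omit [MeasurableSpace Ω] in
lemma mono_rho {T : Type} {L : T → ℝ} {Bd : Set T} {φ : ∀ m : ℕ, T → Y m}
    (h0 : ∀ m ∈ 𝓜, 0 < m) {ω : Ω} {ρ ρ' : ℝ} (h : ρ ≤ ρ')
    (hfin : {x : ℕ × T | x.1 ∈ 𝓜 ∧ x.2 ∈ Bd ∧ L x.2 ≤ (x.1 : ℝ) ^ ρ' ∧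
      φ x.1 x.2 = X x.1 ω}.Finite) :
    {x : ℕ × T | x.1 ∈ 𝓜 ∧ x.2 ∈ Bd ∧ L x.2 ≤ (x.1 : ℝ) ^ ρ ∧
      φ x.1 x.2 = X x.1 ω}.Finite := by
  refine hfin.subset ?_
  rintro ⟨m, t⟩ ⟨h1, h2, h3, h4⟩
  have h5 : (1 : ℝ) ≤ (m : ℝ) := by exact_mod_cast h0 m h1
  exact ⟨h1, h2, h3.trans (Real.rpow_le_rpow_of_exponent_le h5 h), h4⟩

end main

end Pool.Agent.R728.RC
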